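import Pool.Agent.TH826.DC.Final
set_option autoImplicit false

/-!
Beilinson's conjecture on the regulator on `K_j(X)^{(j)}`, `j = dim X + 1`: on the double covers
`z + 1/z = λ ∏_e L_e` of projective space of dimension `n + 1`, the `L_e` being `m + 1` affine forms
in general position with integral coefficients and unit maximal minors, `p_g = binom(m, n + 1)`
unramified classes in Milnor K-theory with linearly independent regulators, for all large
integers `λ`.
-/

namespace Pool.Agent.Results.MP_4a177b_nt.DoubleCoversProjectiveSpace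

open Pool.Agent.TH826.MK (KQ symb Unramified Torus)

open Pool.Agent.TH826.GA (Unimod splx)

open Pool.Agent.TH826.DC

/-- Let `n + 1 ≤ m`, let `σ` be a complex embedding of the number field `K`, and let
`L_e = ∑_j c_{e,j} x_j - a_e`, `0 ≤ e ≤ m`, be affine forms in `n + 1` variables with integral
coefficients in `K`, such that all determinants `det (c_{T_i,j})` of `n + 1` different forms are
units (of the ring of algebraic integers) and no `n + 2` of the forms have a common zero over `K`.
There is a constant `C` such that for all algebraic integers `λ` of `K` with `|σ λ| ≥ C` the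
coordinate ring of the hypersurface `z² - Φ z + 1 = 0`, `Φ = λ ∏_e L_e`, of dimension `n + 1` is a
domain; the hypersurface is smooth (the partial derivatives `2 z - Φ` and `- z ∂Φ/∂x_j` do not
vanish simultaneously at its complex points over `σ`); for all `n + 2` different forms `S` the symbol
`{z, u_1, ..., u_{n+1}}`, `u_k = γ_k L_{S_k} / (γ_0 L_{S_0})`, on the open part `Φ ≠ 0` is unramified
at all discrete valuations of the function field, where `γ_k` is `(-1)^k` times the determinant of
the linear parts of the forms `S` without `S_k`; and there are `binom(m, n + 1)` tori of dimension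
`n + 1` in the complex points (over `σ`) of the open part, such that the determinant of the
regulators on the tori of the symbols of the `S = (0, t_0, ..., t_n)` with
`1 ≤ t_0 < ... < t_n ≤ m` does not vanish. -/
theorem result (n m : ℕ) (hm : n + 1 ≤ m) (K : Type*) [Field K] [NumberField K]
    (σ : K →+* ℂ) (c : Fin (m + 1) → Fin (n + 1) → K) (a : Fin (m + 1) → K) (hA : Unimod c a)
    (hgen : ∀ S : Fin (n + 2) → Fin (m + 1), Function.Injective S → ∀ x : Fin (n + 1) → K,
      ∃ i, ∑ j, c (S i) j * x j ≠ a (S i)) :
    ∃ C : ℝ, ∀ lam : K, IsIntegral ℤ lam → C ≤ ‖σ lam‖ →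
      IsDomain (DRing lam c a) ∧
      (∀ (x : Fin (n + 1) → ℂ) (z : ℂ), z ^ 2 - MvPolynomial.eval₂ σ x (dPhi lam c a) * z + 1 = 0 →
        2 * z - MvPolynomial.eval₂ σ x (dPhi lam c a) ≠ 0 ∨
        ∃ j, MvPolynomial.eval₂ σ x (MvPolynomial.pderiv j (dPhi lam c a)) * z ≠ 0) ∧
      (∀ (L : Type*) [Field L] [Algebra (DRing lam c a) L] [IsFractionRing (DRing lam c a) L],
        ∃ f : DOpen lam c a →+* L,
          (∀ b : DRing lam c a, f (toD lam c a b) = algebraMap (DRing lam c a) L b) ∧
          ∀ S : Fin (n + 2) → Fin (m + 1), Function.Injective S →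
            KQ.map (n + 2) f (symb (dent lam c a S)) ∈ Unramified L (n + 2)) ∧
      ∃ Γ : {s : Finset (Fin m) // s.card = n + 1} → Torus (DOpen lam c a) (n + 1),
        (∀ t θ (x : K), (Γ t).e θ (dcst lam c a x) = σ x) ∧
        (Matrix.of fun t i : {s : Finset (Fin m) // s.card = n + 1} =>
          (Γ t).reg (symb (dent lam c a (splx i)))).det ≠ 0 := by
  obtain ⟨c1, hc1, h⟩ := exists_tori (a := a) σ hA.det_ne hgen
  obtain ⟨c2, h2⟩ := exists_smooth σ hA.det_ne hgen hm
  have hrow : ∀ e, c e ≠ 0 := row_ne_zero hA.det_ne (by omega)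
  refine ⟨max c1 c2, fun lam hlam hl => ?_⟩
  have hl1 : c1 ≤ ‖σ lam‖ := (le_max_left _ _).trans hl
  have hl0 : lam ≠ 0 := by
    intro h0
    rw [h0, map_zero, norm_zero] at hl1
    linarith
  refine ⟨isDomain_DRing hrow hl0, h2 lam ((le_max_right _ _).trans hl), ?_, h lam hl1⟩
  intro L _ _ _
  have hinj : Function.Injective (algebraMap (DRing lam c a) L) := IsFractionRing.injective _ _
  have hne : algebraMap (DRing lam c a) L (dpol lam c a (dPhi lam c a)) ≠ 0 := by
    rw [Ne, map_eq_zero_iff _ hinj]
    exact dpol_dPhi_ne_zero hrow hl0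
  refine ⟨liftD (algebraMap (DRing lam c a) L) hne, fun b => liftD_toD _ _ _, fun S hS => ?_⟩
  exact symb_mem_unramified _ hlam hA hS

end Pool.Agent.Results.MP_4a177b_nt.DoubleCoversProjectiveSpace
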