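import Pool.Agent.TH690.PF.Smooth
set_option autoImplicit false

/-!
Unramified classes with independent regulators in the Milnor K-theory of fibrations over products
of lines: on the varieties
`z + y_1 + ... + y_q + 1/(z y_1 ^ v_1 ... y_q ^ v_q) = λ ∏_k ∏_{0 ≤ i ≤ m_k} (x_k - a_{k,i})` of
dimension `n + q` over a number field, for example over `ℚ`, where `n ≥ 2`, `q ≥ 0`, `v_i ≥ 1`, and
for each `k` the integers `a_{k,0}, ..., a_{k,m_k}` are different, there are `m_1 ... m_n`
unramified classes with linearly independent regulators, for all large integers `λ`.  For `v_i = 1`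
the fibres over the `x`-space are the members of the pencil
`z + y_1 + ... + y_q + 1/(z y_1 ... y_q) = t` of Calabi-Yau varieties of dimension `q` (points,
elliptic curves, K3 surfaces, ...) mirror to the Dwork pencil.
-/

namespace Pool.Agent.Results.MP_4a177b_nt.MultidegreeFibrations

open Pool.Agent.TH690.PF

/-- Let `n ≥ 2` (below `n + 2` is written for `n`), let `q ≥ 0`, let `v_i = w_i + 1 ≥ 1`,
`i = 1, ..., q`, and `m_1, ..., m_n` be integers, let `σ` be a complex embedding of the number field
`K`, and let `a_{k,i}`, `1 ≤ k ≤ n`, `0 ≤ i ≤ m_k`, be algebraic integers of `K` with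
`a_{k,i} ≠ a_{k,i'}` for `i ≠ i'`.  There is a constant `C` such that for all algebraic integers `λ`
of `K` with `|σ λ| ≥ C` the coordinate ring of the affine hypersurface
`F = Y z² + Y (y_1 + ... + y_q - Φ) z + 1 = 0`, `Y = y_1 ^ v_1 ... y_q ^ v_q`,
`Φ = λ ∏_k ∏_i (x_k - a_{k,i})`, of dimension `n + q` (that is
`z + y_1 + ... + y_q + 1/(z y_1 ^ v_1 ... y_q ^ v_q) = Φ`) is a domain; the hypersurface is smooth
at all its complex points over `σ` (the partial derivatives `∂F/∂z`, `∂F/∂y_k` and
`∂F/∂x_j = - Y z ∂Φ/∂x_j` do not vanish simultaneously); for all `i = (i_1, ..., i_n)` with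
`1 ≤ i_k ≤ m_k` the symbol `{z, (x_1 - a_{1,i_1})/(x_1 - a_{1,0}), ...,
(x_n - a_{n,i_n})/(x_n - a_{n,0}), y_1, ..., y_q}` on the open part `Φ ≠ 0` is unramified at all
discrete valuations of the function field; and there are `m_1 ... m_n` tori of dimension `n + q` in
the complex points (over `σ`) of the open part, such that the determinant of the regulators on the
tori of these `m_1 ... m_n` symbols does not vanish. -/
theorem result.{u, v} (n q : ℕ) (w : Fin q → ℕ) (m : Fin (n + 2) → ℕ) (K : Type u) [Field K]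
    [NumberField K] (σ : K →+* ℂ) (a : (k : Fin (n + 2)) → Fin (m k + 1) → K)
    (ha : ∀ k, Function.Injective (a k)) (hint : ∀ k i, IsIntegral ℤ (a k i)) :
    ∃ C : ℝ, ∀ lam : K, IsIntegral ℤ lam → C ≤ ‖σ lam‖ →
      IsDomain (PRing w (mPhi lam a)) ∧ SmoothPts w σ (mPhi lam a) ∧
        UnramSymb.{u, v} w lam a ∧ IndepReg w σ lam a := by
  obtain ⟨c1, hc1, h⟩ := exists_tori (a := a) w σ ha
  obtain ⟨c2, h2⟩ := exists_smoothPts w σ a
  refine ⟨max c1 c2, fun lam hlam hl => ?_⟩
  have hl1 : c1 ≤ ‖σ lam‖ := (le_max_left _ _).trans hl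
  have hl0 : lam ≠ 0 := by
    intro h0
    rw [h0, map_zero, norm_zero] at hl1
    linarith
  exact ⟨isDomain_PRing (mPhi_ne_C lam a (Nat.succ_pos _) hl0), h2 lam ((le_max_right _ _).trans hl),
    unramSymb w (Nat.succ_pos _) hint hlam hl0, h lam hl1⟩

end Pool.Agent.Results.MP_4a177b_nt.MultidegreeFibrations
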