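import Pool.Agent.TH72.SR.Final

/-!
# Beilinson's conjecture for `K_j^{(j)}` and base change to totally real fields in which all small
primes split completely
-/

set_option autoImplicit false

open NumberField Pool.Agent.TH965.St Pool.Agent.TH349.ORP Pool.Agent.TH72.SR

namespace Pool.Agent.Results.MP_4a177b_nt.SplitBaseChange

/-- The smooth projective varieties `x` over `ℚ` and the facts used about them (`j ≥ 2` is fixed). -/
structure Varieties where
  /-- the varieties -/
  X : Type
  /-- statement (1) of Q1 for `x`: the regulator map is bijective -/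
  bij : X → Prop
  /-- `L(h^{j-1}(x), s)` continues meromorphically to a neighbourhood of `s = 0` -/
  cont : X → Prop
  /-- the determinant of the regulator with respect to rational bases, divided by
  `L*(h^{j-1}(x), 0)` (for `x` with `bij` and `cont`) -/
  val : X → ℝ
  /-- the variety `x × Spec K` over `ℚ` -/
  bc : X → IntermediateField ℚ Qb → X
  /-- `x × Spec ℚ = x` -/
  bc_bot : ∀ x, bc x ⊥ = x
  /-- Galois descent for (1) -/
  descent : ∀ (x : X) (K : IntermediateField ℚ Qb), NumberField K → IsGalois ℚ K →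
    bij (bc x K) → bij x
  /-- modulo `ℚ^×` the quotients for `x × Spec K` are given by the permutation characters of the `K`
  (Artin formalism for leading coefficients and Galois descent) -/
  mult : ∀ (x : X) (n n' : ℕ) (K : Fin n → IntermediateField ℚ Qb)
    (K' : Fin n' → IntermediateField ℚ Qb),
    (∀ a, NumberField (K a) ∧ bij (bc x (K a)) ∧ cont (bc x (K a))) →
    (∀ b, NumberField (K' b) ∧ bij (bc x (K' b)) ∧ cont (bc x (K' b))) →
    (∀ g : GQ, ∑ a, perm (K a) g = ∑ b, perm (K' b) g) →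
    ∃ q : ℚ, q ≠ 0 ∧ ∏ a, val (bc x (K a)) = q * ∏ b, val (bc x (K' b))

/-- statement (2) of Q1 for `x`: the quotient is rational and not zero -/
def Varieties.Value (T : Varieties) (x : T.X) : Prop := ∃ q : ℚ, q ≠ 0 ∧ T.val x = q

/-- Q1 for `x`: (1), and (2) if the `L`-function continues -/
def Varieties.Q1 (T : Varieties) (x : T.X) : Prop := T.bij x ∧ (T.cont x → T.Value x)

/-- the `L`-functions of all `x × Spec K`, `K` a number field, continue to a neighbourhood of `0` -/
def Varieties.Good (T : Varieties) (x : T.X) : Prop :=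
  ∀ K : IntermediateField ℚ Qb, NumberField K → T.cont (T.bc x K)

/-- for every smooth projective variety `x` over `ℚ` (`Good`): Q1 for `x × Spec K₁, ...,
x × Spec K_r` implies Q1 for `x` -/
def Suffices {r : ℕ} (K : Fin r → IntermediateField ℚ Qb) : Prop :=
  ∀ (T : Varieties) (x : T.X), T.Good x → (∀ a, T.Q1 (T.bc x (K a))) → T.Q1 x

theorem prod_value {T : Varieties} {n : ℕ} (y : Fin n → T.X) (h : ∀ a, T.Value (y a)) :
    ∃ q : ℚ, q ≠ 0 ∧ ∏ a, T.val (y a) = q := by
  choose e he h1 using h
  refine ⟨∏ a, e a, Finset.prod_ne_zero_iff.2 fun a _ => he a, ?_⟩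
  rw [Rat.cast_prod]
  exact Finset.prod_congr rfl fun a _ => h1 a

theorem main (T : Varieties) (x : T.X) (hx : T.Good x) {n n' : ℕ}
    {K : Fin n → IntermediateField ℚ Qb} {K' : Fin n' → IntermediateField ℚ Qb}
    (h1 : ∀ a, NumberField (K a)) (h2 : ∀ b, NumberField (K' b)) (hG : ∀ a, IsGalois ℚ (K a))
    (h5 : ∀ g : GQ, ∑ a, perm (K a) g = 1 + ∑ b, perm (K' b) g)
    (h3 : ∀ a, T.Q1 (T.bc x (K a))) (h4 : ∀ b, T.Q1 (T.bc x (K' b))) : T.Q1 x := by
  have hb : T.bij x := by
    rcases Nat.eq_zero_or_pos n with h0 | h0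
    · subst h0
      have := h5 1
      simp at this
      omega
    · exact T.descent x (K ⟨0, h0⟩) (h1 _) (hG _) (h3 _).1
  refine ⟨hb, fun _ => ?_⟩
  let K1 : Fin (n' + 1) → IntermediateField ℚ Qb := Fin.cons ⊥ K'
  have hbot : T.cont (T.bc x ⊥) := hx ⊥ nf_bot
  have a1 : ∀ b, NumberField (K1 b) ∧ T.bij (T.bc x (K1 b)) ∧ T.cont (T.bc x (K1 b)) := by
    intro b
    refine Fin.cases ?_ (fun i => ?_) b
    · exact ⟨nf_bot, by rw [show K1 0 = ⊥ from rfl, T.bc_bot]; exact hb, hbot⟩
    · exact ⟨h2 i, (h4 i).1, hx _ (h2 i)⟩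
  obtain ⟨q, hq, b1⟩ := T.mult x n (n' + 1) K K1 (fun a => ⟨h1 a, (h3 a).1, hx _ (h1 a)⟩) a1 (by
    intro g
    rw [Fin.sum_univ_succ, h5 g]
    have : perm (K1 0) g = 1 := perm_bot g
    rw [this]
    rfl)
  obtain ⟨e, he, c1⟩ := prod_value (fun a => T.bc x (K a)) fun a => (h3 a).2 (hx _ (h1 a))
  obtain ⟨e', he', c2⟩ := prod_value (fun b => T.bc x (K' b)) fun b => (h4 b).2 (hx _ (h2 b))
  have e0 : K1 0 = ⊥ := rfl
  have b4 : ∏ b : Fin n', T.val (T.bc x (K1 b.succ)) = e' := c2
  rw [Fin.prod_univ_succ, c1, e0, T.bc_bot, b4] at b1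
  have hq' : (q : ℝ) * e' ≠ 0 := mul_ne_zero (Rat.cast_ne_zero.2 hq) (Rat.cast_ne_zero.2 he')
  refine ⟨e / (q * e'), div_ne_zero he (mul_ne_zero hq he'), ?_⟩
  rw [Rat.cast_div, Rat.cast_mul, eq_div_iff hq', b1]
  ring

/-- **Beilinson's conjecture for `K_j^{(j)}` and split base change.** Let `N ≥ 0` and let `F` be a
number field. There are finitely many Galois number fields `K₁, ..., K_r`, totally real, of degree at
least `N`, with commutative Galois groups of exponent `2` or `3`, with `K_a ∩ F = ℚ`, in which all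
primes `p ≤ N` split completely, such that for every smooth projective variety `x` over `ℚ`: Q1 for
`x × Spec K_a`, `a = 1, ..., r`, implies Q1 for `x`. Hence Q1 for the `x × Spec K`, `K` a field as
above, implies Q1 for all `x`. -/
theorem result (N : ℕ) (F : IntermediateField ℚ Qb) (hF : NumberField F) :
    (∃ (r : ℕ) (K : Fin r → IntermediateField ℚ Qb), (∀ a, SplitReal N F (K a)) ∧ Suffices K) ∧
    ∀ T : Varieties, (∀ x K, SplitReal N F K → T.Good x → T.Q1 (T.bc x K)) →
      ∀ x, T.Good x → T.Q1 x := by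
  have key : ∃ (r : ℕ) (K : Fin r → IntermediateField ℚ Qb), (∀ a, SplitReal N F (K a)) ∧
      Suffices K := by
    obtain ⟨n, K, n', K', h3, h4, h5⟩ := trivial_character N F hF
    refine ⟨n + n', Fin.append K K', fun a => ?_, ?_⟩
    · refine Fin.addCases (fun i => ?_) (fun i => ?_) a
      · rw [Fin.append_left]; exact h3 i
      · rw [Fin.append_right]; exact h4 i
    · intro T x hx hc
      refine main T x hx (fun a => (h3 a).1) (fun b => (h4 b).1) (fun a => (h3 a).2.1) h5
        (fun a => ?_) (fun b => ?_)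
      · have := hc (Fin.castAdd n' a)
        rwa [Fin.append_left] at this
      · have := hc (Fin.natAdd n b)
        rwa [Fin.append_right] at this
  refine ⟨key, fun T H x hx => ?_⟩
  obtain ⟨r, K, h1, h2⟩ := key
  exact h2 T x hx fun a => H x (K a) (h1 a) hx

end Pool.Agent.Results.MP_4a177b_nt.SplitBaseChange
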